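import Pool.Agent.J4H50.YM.Cv

set_option autoImplicit false
set_option linter.unusedSectionVars false
set_option linter.unusedVariables false
set_option linter.unusedSimpArgs false

/-! # The motivic zeta functions of reduced plane curves -/

namespace Pool.Agent.J4H50.YM

attribute [-instance] HahnSeries.powerSeriesAlgebra

open Pool.Agent.W574.MO Pool.Agent.W574.SM Pool.Agent.N103 Pool.Agent.J4H50.YO
open Polynomial

/-- the evaluated functional equation of a plane curve, if there is no functional -/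
theorem evp_curve (hRN : S_RN) {F : MP} {s : ℂ} (hn : ¬ NV (F : MvPowerSeries (Fin 2) ℂ) s) :
    Evp (FF F (fun _ : Option Empty => (1 : MP)) 1) s := by
  have hn' : ¬ NV ((FF F (fun _ : Option Empty => (1 : MP)) 1 :
      MvPolynomial (Fin 2 ⊕ Empty) ℂ) : MvPowerSeries (Fin 2 ⊕ Empty) ℂ) s := by
    intro h
    apply hn
    have h1 := (hRN (Equiv.sumEmpty (Fin 2) Empty) _ s).1 h
    have h2 : MvPowerSeries.rename (Equiv.sumEmpty (Fin 2) Empty)
        ((FF F (fun _ : Option Empty => (1 : MP)) 1 :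
          MvPolynomial (Fin 2 ⊕ Empty) ℂ) : MvPowerSeries (Fin 2 ⊕ Empty) ℂ) =
        (F : MvPowerSeries (Fin 2) ℂ) := by
      rw [MvPowerSeries.rename_coe, FF_eq, MvPolynomial.rename_rename]
      congr 1
      have h3 : (Equiv.sumEmpty (Fin 2) Empty) ∘ (Sum.inl : Fin 2 → Fin 2 ⊕ Empty) = id := by
        funext i
        rfl
      rw [h3, MvPolynomial.rename_id_apply]
    rw [h2] at h1
    exact h1
  exact evp_of _ s hn'

theorem LL_sub_ne : ((LL : AAˣ) : AA) - 1 ≠ 0 := by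
  have := LL_pow_ne (k := 1) (l := 0) (by decide)
  simpa using this

/-- division by `L - 1` -/
theorem div_LL {K : ℕ → ℕ → Prop} {σ : PowerSeries AA}
    (h : PowerSeries.C (((LL : AAˣ) : AA) - 1) * σ ∈ DenRing LL K) :
    ∃ s : Multiset (ℕ × ℕ), Ok K s ∧ ∃ P : AA[X], (dprod s : PowerSeries AA) * σ = P := by
  obtain ⟨s, hs, P, hP⟩ := exists_denom h
  refine ⟨s, hs, ((dprod s : PowerSeries AA) * σ).trunc (P.natDegree + 1), ?_⟩
  have hP' : PowerSeries.C (((LL : AAˣ) : AA) - 1) * ((dprod s : PowerSeries AA) * σ) = P := by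
    rw [← hP]
    ring
  refine PowerSeries.ext fun k => ?_
  rw [Polynomial.coeff_coe, PowerSeries.coeff_trunc]
  split_ifs with hk
  · rfl
  · have h1 := congrArg (PowerSeries.coeff k) hP'
    rw [PowerSeries.coeff_C_mul, Polynomial.coeff_coe,
      coeff_eq_zero_of_natDegree_lt (by omega)] at h1
    exact (mul_eq_zero.1 h1).resolve_left LL_sub_ne

theorem one_sub_X_ne : (1 - PowerSeries.X : PowerSeries AA) ≠ 0 := by
  intro h
  have := congrArg (PowerSeries.coeff 0) h
  simp at this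

theorem vol_mul {M : Type} [CommRing M] (Z : PowerSeries M) :
    (1 - PowerSeries.X) * vol Z = 1 - Z := by
  have h1 : (PowerSeries.mk fun _ => (1 : M)) * (1 - PowerSeries.X) = 1 :=
    PowerSeries.mk_one_mul_one_sub_eq_one M
  rw [vol]
  linear_combination (1 - Z) * h1

theorem Phi_vol {M : Type} [CommRing M] (L : Mˣ) (Z : PowerSeries AA) :
    Pool.Agent.W574.MO.Phi L (vol Z) = vol (Pool.Agent.W574.MO.Phi L Z) := by
  rw [vol, vol, map_mul, map_sub, map_one]
  congr 1
  refine PowerSeries.ext fun n => ?_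
  rw [Pool.Agent.W574.MO.Phi, PowerSeries.coeff_map, PowerSeries.coeff_mk, PowerSeries.coeff_mk,
    map_one]

/-- (M6) reduced plane curves -/
theorem dec_curve (hRN : S_RN) (hM1 : S_M1) (hM2 : S_M2) (hM3 : S_M3) (hM4 : S_M4)
    {M : Type} [CommRing M] (L : Mˣ) {F : MP} (hF : F ≠ 0)
    (h0 : MvPolynomial.constantCoeff F = 0) {Z : PowerSeries M}
    (hZ : RedZeta (mf L) (PowerSeries.C (L : M)) F 0 1 0 1 Z) :
    Dec L (KN (F : MvPowerSeries (Fin 2) ℂ)) Z := by
  classical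
  obtain ⟨Z0, hZ0, rfl⟩ := hM1 L hZ
  set G : ℕ → ℕ → Prop := fun a n => NV (F : MvPowerSeries (Fin 2) ℂ) (-(n : ℂ) / a) with hG
  obtain ⟨ρ, hρ⟩ := hM4 LL hZ0 (Or.inr (Or.inr h0))
  -- the denominators of `(1 - L⁻¹ T) Z`
  have hW : (1 - qq LL 1 1) * Z0 ∈ DenRing LL G := by
    have hT : (1 - qq LL 1 1) * Z0 ∈ DenRing LL (fun _ _ => True) :=
      Subring.mul_mem _ (Subring.sub_mem _ (Subring.one_mem _) (qq_mem _ _))
        (hM2 LL hZ0 le_rfl le_rfl)
    obtain ⟨s, hs, Q, hQ⟩ := exists_denom hT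
    refine descent G _ s (fun p hp => ⟨(hs p hp).1, (hs p hp).2.1⟩) ?_ Q hQ
    intro a' n ha' hn hne
    have hac : (a' : ℂ) ≠ 0 := Nat.cast_ne_zero.2 (by omega)
    have h2 := regM (L := LL) hF (evp_curve hRN hne) hZ0
    refine Subring.closure_mono (Set.union_subset_union_right _ ?_) h2
    rintro u ⟨a1, n1, ha1, hn1, hK, hu⟩
    refine ⟨a1, n1, ha1, hn1, ?_, hu⟩
    intro h3
    apply hK
    have h4 : (n : ℂ) * a1 = n1 * a' := by exact_mod_cast h3
    field_simp
    linear_combination -h4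
  set σ : PowerSeries AA := (1 - qq LL 1 1) * ρ with hσ
  have hWσ : (1 - qq LL 1 1) * Z0 = PowerSeries.C (((LL : AAˣ) : AA) - 1) * σ := by
    rw [hσ, hρ]
    ring
  rw [hWσ] at hW
  obtain ⟨s, hs, P, hP⟩ := div_LL hW
  have hσm : σ ∈ DenRing LL G := mem_of_denom s hs P hP
  -- the value at `T = 1`
  obtain ⟨P3, Q3, hQ3, hQ3n, hP3⟩ := hM3 hZ0 le_rfl le_rfl (fun _ => rfl) (fun _ => rfl)
  have hP3' : P3.eval 1 = Q3.eval 1 := by
    have h1 : (((LL : AAˣ) : AA) - 1) ^ 2 ≠ 0 := pow_ne_zero _ LL_sub_ne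
    apply mul_left_cancel₀ h1
    rw [← hP3]
    ring
  set li : AA := ((LL⁻¹ : AAˣ) : AA) with hli
  have hLi : ((LL : AAˣ) : AA) * li = 1 := by
    rw [hli, ← Units.val_mul, mul_inv_cancel, Units.val_one]
  have hqq : (1 - qq LL 1 1 : PowerSeries AA) = ((1 - C li * X : AA[X]) : PowerSeries AA) := by
    rw [qq, pow_one, pow_one]
    simp [hli]
  have e1 : Q3 * (C (((LL : AAˣ) : AA) - 1) * P) = dprod s * ((1 - C li * X) * P3) := by
    apply Polynomial.coe_injective
    rw [Polynomial.coe_mul, Polynomial.coe_mul, Polynomial.coe_mul, Polynomial.coe_mul, ← hqq,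
      Polynomial.coe_C, ← hP, ← hQ3]
    linear_combination (-(Q3 : PowerSeries AA) * (dprod s : PowerSeries AA)) * hWσ
  have e2 := congrArg (fun p : AA[X] => p.eval 1) e1
  simp only [eval_mul, eval_sub, eval_one, eval_C, eval_X, mul_one] at e2
  rw [hP3'] at e2
  have e3 : ((LL : AAˣ) : AA) * P.eval 1 = (dprod s).eval 1 := by
    have h1 : Q3.eval 1 * (((LL : AAˣ) : AA) - 1) ≠ 0 := mul_ne_zero hQ3n LL_sub_ne
    apply mul_left_cancel₀ h1
    linear_combination ((LL : AAˣ) : AA) * e2 - (dprod s).eval 1 * Q3.eval 1 * hLi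
  -- `δ = vol Z - ρ`
  set δ : PowerSeries AA := vol Z0 - ρ with hδ
  have e4 : (1 - PowerSeries.X) * δ = 1 - PowerSeries.C ((LL : AAˣ) : AA) * σ := by
    have h1 := vol_mul Z0
    have h2 : PowerSeries.C ((LL : AAˣ) : AA) * qq LL 1 1 = (PowerSeries.X : PowerSeries AA) := by
      rw [qq, pow_one, pow_one, ← mul_assoc, ← map_mul, hLi, map_one, one_mul]
    have h3 : PowerSeries.C (((LL : AAˣ) : AA) - 1) = PowerSeries.C ((LL : AAˣ) : AA) - 1 := by
      rw [map_sub, map_one]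
    rw [h3] at hρ
    rw [hδ, hσ]
    linear_combination h1 - hρ - ρ * h2
  set N : AA[X] := dprod s - C ((LL : AAˣ) : AA) * P with hN
  have e5 : (1 - PowerSeries.X) * ((dprod s : PowerSeries AA) * δ) = (N : PowerSeries AA) := by
    rw [hN, Polynomial.coe_sub, Polynomial.coe_mul, Polynomial.coe_C, ← hP]
    linear_combination (dprod s : PowerSeries AA) * e4
  have e6 : N.IsRoot 1 := by
    rw [IsRoot, hN, eval_sub, eval_mul, eval_C, e3, sub_self]
  obtain ⟨N', hN'⟩ := dvd_iff_isRoot.2 e6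
  have e7 : (dprod s : PowerSeries AA) * δ = ((-N' : AA[X]) : PowerSeries AA) := by
    apply mul_left_cancel₀ one_sub_X_ne
    rw [e5, hN', map_one, Polynomial.coe_mul, Polynomial.coe_sub, Polynomial.coe_X,
      Polynomial.coe_one, Polynomial.coe_neg]
    ring
  have hδm : δ ∈ DenRing LL G := mem_of_denom s hs _ e7
  -- the map to `M`
  have hmono : ∀ {x : PowerSeries AA}, x ∈ DenRing LL G →
      Pool.Agent.W574.MO.Phi L x ∈ DenRing L (KN (F : MvPowerSeries (Fin 2) ℂ)) := by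
    intro x hx
    refine Subring.closure_mono (Set.union_subset_union_right _ ?_) (Phi_mem L hx)
    rintro u ⟨a1, n1, ha1, hn1, hK, hu⟩
    refine ⟨a1, n1, ha1, hn1, ⟨hK, NV_sing _ _ ?_ hK⟩, hu⟩
    rw [← MvPowerSeries.coeff_zero_eq_constantCoeff_apply, MvPolynomial.coeff_coe,
      ← MvPolynomial.constantCoeff_eq, h0]
  refine ⟨Pool.Agent.W574.MO.Phi L ρ, 0, ?_, Subring.zero_mem _, ?_, ?_⟩
  · rw [hρ, map_mul, Phi_C, map_sub, map_one, phi_LL, add_zero]
  · have h1 := hmono hσm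
    rw [hσ, map_mul, map_sub, map_one, Phi_qq] at h1
    exact h1
  · have h1 := hmono hδm
    rw [hδ, map_sub, Phi_vol] at h1
    exact h1

end Pool.Agent.J4H50.YM
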