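import Pool.Agent.J4H50.YM.Fin
import Pool.Agent.J4H2.YM.M1
import Pool.Agent.J4H19.YM.M3
import Pool.Agent.J4H97.YM.M4
import Pool.Agent.J4H97.YM.M7
import Pool.Agent.J4H19.YM.M8

set_option autoImplicit false

/-! # The local theorem, without hypotheses -/

namespace Pool.Agent.J4H50.YM

open Pool.Agent.W574.MO Pool.Agent.J4H50.TF Pool.Agent.J4H50.YO
open Pool.Agent.Y229.PS (IsFormalBFunction)

variable {M : Type} [CommRing M] {L : Mˣ}

/-- **The local theorem.** -/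
theorem siz_local' {N : ℕ} (f : MvPowerSeries (Fin N) ℂ) (Z : PowerSeries M)
    (hZ : SIZ L (Fin N) f Z) (b : Polynomial ℂ) (hb : IsFormalBFunction f b) :
    Z ∈ DenRing L (Kb b) :=
  siz_local Pool.Agent.J4H2.YM.t_M1 Pool.Agent.J4H2.YM.t_M2 Pool.Agent.J4H19.YM.t_M3
    Pool.Agent.J4H97.YM.t_M4 Pool.Agent.J4H97.YM.t_M7 Pool.Agent.J4H19.YM.t_M8 f Z hZ b hb

end Pool.Agent.J4H50.YM
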