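import Pool.Agent.J4H50.YO.Defs
import Pool.Agent.N103.PointA

set_option autoImplicit false

/-! # The motivic zeta functions of superisolated singularities

`M` is a commutative ring with a unit `L`. The main example is `M = K₀(Var_ℂ)[1/L]`, the Grothendieck
ring of complex varieties, localized at the class `L` of the affine line. The zeta functions are
normalized such that the arcs at the origin have the volume `1`: for a germ `f` in `n` variables,
`Z = ∑_{m ≥ 1} [X_m] L^(-m n) Tᵐ`, `X_m` the space of the arcs `φ` at the origin modulo `t^(m+1)` with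
`ord f(φ) = m`. The variable of the power series is denoted by `T` in the comments. -/

namespace Pool.Agent.J4H50.YM

open Pool.Agent.W574.MO Pool.Agent.J4H50.TF Pool.Agent.J4H50.YO
open PowerSeries (C X)

variable {M : Type} [CommRing M]

/-- `(1 - Z) / (1 - T)`: for `Z = ∑ z_m Tᵐ`, the coefficient of `Tᵐ` is `1 - ∑_{l ≤ m} z_l`, the volume of
the arcs `φ` with `ord f(φ) > m` -/
noncomputable def vol (Z : PowerSeries M) : PowerSeries M := (1 - Z) * PowerSeries.mk fun _ => 1

/-- `x(L⁻ⁿ T^(d + 1))` -/
noncomputable def sbS (L : Mˣ) (n d : ℕ) : PowerSeries M →+* PowerSeries M :=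
  (PowerSeries.expand (d + 1) (Nat.succ_ne_zero d)).toRingHom.comp
    (PowerSeries.rescale ((L⁻¹ ^ n : Mˣ) : M))

/-- The contribution of a singular point `P` of the tangent cone `f_d = 0` of a germ `f` in `n`
variables, where near `P` the blowing up of the origin has coordinates `(z, y)` such that `z = 0` is
the exceptional divisor and `f = z ^ d (g(y) + z)` up to a unit; `Z = ∑ z_m Tᵐ` is the zeta function
of `g`, and `V = ∑ v_m Tᵐ = (1 - Z) / (1 - T)`. The arcs with `ord z = m` have the volume
`(L - 1) L^(-n m)`, and `ord (g + z)` is `m` if `ord g > m`, `ord g` if `ord g < m`, and uniformly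
distributed if `ord g = m`: the contribution is
`∑_{m ≥ 1} L^(-n m) T^(d m) ((L - 1) (v_m Tᵐ + ∑_{j < m} z_j Tʲ) + z_m Tᵐ (L - 2 + (L - 1) L⁻¹ T / (1 - L⁻¹ T)))`,
which is, with `S = L⁻ⁿ T^(d + 1)`,
`(L - 1) (V(S) - 1) + Z(S) ((L - 1) / (1 - L⁻ⁿ Tᵈ) + (L - 1) / (1 - L⁻¹ T) - L)`. -/
noncomputable def ptZ (L : Mˣ) (n d : ℕ) (Z : PowerSeries M) : PowerSeries M :=
  C ((L : M) - 1) * (sbS L n d (vol Z) - 1) +
    sbS L n d Z * (C ((L : M) - 1) * geo L d n + C ((L : M) - 1) * geo L 1 1 - C (L : M))

/-- The zeta function of a germ `f = f_d + ⋯` in `n` variables such that at the singular points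
`P = p_i` of the tangent cone `f_d = 0` the blowing up of the origin is as in `ptZ`. Here `A` is the
class of the complement of the tangent cone in the projective space `ℙ^(n-1)`, so that the class of
the smooth part of the tangent cone is `[ℙ^(n-1)] - A - ∑_i 1`. -/
noncomputable def coneZ {ι : Type} [Fintype ι] (L : Mˣ) (n d : ℕ) (A : M)
    (Z : ι → PowerSeries M) : PowerSeries M :=
  C A * mf L d n +
    C ((∑ i ∈ Finset.range n, (L : M) ^ i) - A - (Fintype.card ι : M)) * (mf L d n * mf L 1 1) +
    ∑ i, ptZ L n d (Z i)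

section Swh

variable {σ : Type} [Fintype σ]

/-- `∑_{m ≥ 1} L^(- ∑_i ⌊m w_i / D⌋) [{x ∈ ℂ^I : G₀(x) ≠ 0}] Tᵐ`, `I = {i : D ∣ m w_i}`: the arcs `z` with
`D ord z_i ≥ m w_i` for all `i`, and `G₀(z₀) ≠ 0`, where `z₀` has the coordinates `z_i t^(- m w_i / D)` at
`t = 0` for `i ∈ I`, and `0` for `i ∉ I`. Here `po I` is the class of `{x ∈ ℂ^I : G₀(x) ≠ 0}`. -/
noncomputable def swA (L : Mˣ) (w : σ → ℕ) (D : ℕ) (po : Finset σ → M) : PowerSeries M :=
  PowerSeries.mk fun m => if m = 0 then 0 else
    ((L⁻¹ ^ (∑ i, m * w i / D) : Mˣ) : M) * po (Finset.univ.filter fun i => D ∣ m * w i)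

/-- `∑_m L^(- ∑_i (⌈(m + 1) w_i / D⌉ - 1)) Tᵐ`: the volumes of the arcs `z` with
`D ord z_i ≥ (m + 1) w_i` for all `i` -/
noncomputable def swV (L : Mˣ) (w : σ → ℕ) (D : ℕ) : PowerSeries M :=
  PowerSeries.mk fun m => ((L⁻¹ ^ (∑ i, ((m + 1) * w i - 1) / D) : Mˣ) : M)

/-- The zeta function of `G₀ + g`, where `G₀` is weighted homogeneous of degree `D` for the weights
`w` with an isolated critical point, and `g` has greater weight: the arcs `z` with
`m / D ≤ min_i (ord z_i / w_i) < (m + 1) / D` which are not in the `m`-th part of `swA` have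
`f(z) / tᵐ` uniformly distributed among the power series in `t` without constant term. -/
noncomputable def swZM (L : Mˣ) (w : σ → ℕ) (D : ℕ) (po : Finset σ → M) : PowerSeries M :=
  swA L w D po + (1 - (1 - X) * swV L w D - swA L w D po) * mf L 1 1

end Swh

/-- `SIZ L σ f Z`: the formal power series `f` (in the variables `σ`) vanishes at the origin, and `Z` is
its local motivic zeta function at the origin (normalized as above). The rules are

* `smooth`: `f = 0` is smooth: `Z = (L - 1) L⁻¹ T / (1 - L⁻¹ T)`;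
* `curve`: `f` is a polynomial in two variables, without multiple factors through the origin, and the
  zeta function is computed by blowing up points of the plane (`RedZeta`);
* `swh`: `f = G₀ + g`, where the polynomial `G₀` is weighted homogeneous and has an isolated critical
  point at the origin, and all the terms of `g` have greater weight;
* `cone`: `f = f_d + R` in the `n` variables `Option τ`, where `f_d` is a form of degree `d ≥ 2` and
  all terms of `R` have greater degree. The points `P = p_i` of the projective space (pairwise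
  different) contain all the singular points of the tangent cone `f_d = 0`. Near `P` there are formal
  coordinates `(z, y)` of the blowing up of the origin, such that `z = 0` is the exceptional divisor
  (the blowing up is `x = z ξ(z, y)` with `ξ(0, 0) = p_i`, and the Jacobian determinant is `z ^ (n - 1)`
  up to a unit), and `f = z ^ d (g_P(y) + z)` up to a unit, and `g_P` is in the class; `n ≤ d + 1`.
  (This holds, with the germs `g_P` of the tangent cone at `P`, if and only if the terms of degree
  `d + 1` of `R` do not vanish at the singular points `P` of the tangent cone: `f` is superisolated.)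
  The zeta function is given by `coneZ`, where `A` is the class of the complement of the tangent cone.
  It is assumed that the differential form `f_d ^ (- n / d) dx_1 ∧ ⋯ ∧ dx_n` is not exact on the
  complement of `f_d = 0` (`NonExact`), or that for one of the points `P` there is a de Rham
  functional for `g_P ^ (- n / d) dy` with the value `1` (`NV`);
* `ren`: other names of the variables;
* `coord`: `f'(φ) = u f` with formal coordinates `φ` and a unit `u`. -/
inductive SIZ (L : Mˣ) : (σ : Type) → MvPowerSeries σ ℂ → PowerSeries M → Prop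
  | smooth {σ : Type} [Finite σ] (f : MvPowerSeries σ ℂ) (h0 : MvPowerSeries.constantCoeff f = 0)
      (i : σ) (h1 : MvPowerSeries.coeff (Finsupp.single i 1) f ≠ 0) : SIZ L σ f (mf L 1 1)
  | curve (F : MvPolynomial (Fin 2) ℂ) (hF : F ≠ 0) (h0 : MvPolynomial.constantCoeff F = 0)
      (Z : PowerSeries M) (hZ : RedZeta (mf L) (C (L : M)) F 0 1 0 1 Z) :
      SIZ L (Fin 2) (F : MvPowerSeries (Fin 2) ℂ) Z
  | swh {σ : Type} [Fintype σ] [Nonempty σ] (G0 : MvPolynomial σ ℂ) (g : MvPowerSeries σ ℂ)
      (w : σ → ℕ) (D : ℕ) (hw : ∀ i, 0 < w i) (hD : 0 < D) (hG0 : G0.IsWeightedHomogeneous w D)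
      (hg : OrdF w (D + 1) g) (h0 : ∀ i, MvPolynomial.coeff (Finsupp.single i 1) G0 = 0)
      (h1 : ∀ i, MvPowerSeries.coeff (Finsupp.single i 1) g = 0)
      (hz : ∀ z : σ → ℂ, (∀ i, MvPolynomial.eval z (MvPolynomial.pderiv i G0) = 0) → z = 0)
      (po : Finset σ → M) :
      SIZ L σ ((G0 : MvPowerSeries σ ℂ) + g) (swZM L w D po)
  | cone {τ ι : Type} [Fintype τ] [DecidableEq τ] [Fintype ι] (d : ℕ) (hd : 2 ≤ d)
      (f0 : MvPolynomial (Option τ) ℂ) (hf0 : f0.IsHomogeneous d) (hf00 : f0 ≠ 0)
      (R : MvPowerSeries (Option τ) ℂ) (hR : OrdF (fun _ => 1) (d + 1) R)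
      (p : ι → Option τ → ℂ) (hp : ∀ i j, i ≠ j → ∀ c : ℂ, p i ≠ c • p j)
      (hsing : ∀ x : Option τ → ℂ, x ≠ 0 →
        (∀ l, MvPolynomial.eval x (MvPolynomial.pderiv l f0) = 0) → ∃ i, ∃ c : ℂ, x = c • p i)
      (hn : Fintype.card τ ≤ d)
      (ξ : ι → Option τ → MvPowerSeries (Option τ) ℂ)
      (hξ : ∀ i l, MvPowerSeries.constantCoeff (ξ i l) = p i l)
      (J U : ι → MvPowerSeries (Option τ) ℂ) (hJu : ∀ i, IsUnit (J i)) (hU : ∀ i, IsUnit (U i))
      (hJ : ∀ i, (Matrix.of fun l m => MvPowerSeries.pderiv ℂ m (MvPowerSeries.X none * ξ i l)).det =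
        MvPowerSeries.X none ^ Fintype.card τ * J i)
      (g : ι → MvPowerSeries τ ℂ) (Z : ι → PowerSeries M) (hg : ∀ i, SIZ L τ (g i) (Z i))
      (hf : ∀ i, MvPowerSeries.subst (fun l => MvPowerSeries.X none * ξ i l)
          ((f0 : MvPowerSeries (Option τ) ℂ) + R) =
        U i * (MvPowerSeries.X none ^ d *
          (MvPowerSeries.rename some (g i) + MvPowerSeries.X none)))
      (A : M)
      (hA : NonExact f0 (-((Fintype.card τ + 1 : ℕ) : ℂ) / d) ∨
        ∃ i, NV (g i) (-((Fintype.card τ + 1 : ℕ) : ℂ) / d) ∧ Sing (g i)) :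
      SIZ L (Option τ) ((f0 : MvPowerSeries (Option τ) ℂ) + R)
        (coneZ L (Fintype.card τ + 1) d A Z)
  | ren {σ τ : Type} [Finite σ] (ε : σ ≃ τ) (f : MvPowerSeries σ ℂ) (Z : PowerSeries M)
      (hf : SIZ L σ f Z) : SIZ L τ (MvPowerSeries.rename ε f) Z
  | coord {σ : Type} [Fintype σ] [DecidableEq σ] (f f' : MvPowerSeries σ ℂ) (Z : PowerSeries M)
      (hf : SIZ L σ f Z) (φ : σ → MvPowerSeries σ ℂ) (u : MvPowerSeries σ ℂ) (hφ : IsCo φ)
      (hu : IsUnit u) (h : MvPowerSeries.subst φ f' = u * f) : SIZ L σ f' Z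

end Pool.Agent.J4H50.YM
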