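import Pool.Agent.J4H50.YM.Stm
import Pool.Agent.J4H50.YO.CuE

set_option autoImplicit false
set_option linter.unusedSectionVars false
set_option linter.unusedVariables false
set_option linter.unusedSimpArgs false

/-! # The motivic zeta functions of reduced plane curves: regularity at one number -/

namespace Pool.Agent.J4H50.YM

attribute [-instance] HahnSeries.powerSeriesAlgebra

open Pool.Agent.W574.MO Pool.Agent.W574.SM Pool.Agent.N103 Pool.Agent.J4H50.YO
open Polynomial

variable {M : Type} [CommRing M] (L : Mˣ)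

/-- the local factors, with a variable instead of the factor of a divisor with the data `(1, 1)` -/
noncomputable def fM (a n : ℕ) : (PowerSeries M)[X] :=
  if a = 1 ∧ n = 1 then X else C (mf L a n)

theorem fM_eval (a n : ℕ) : (fM L a n).eval (mf L 1 1) = mf L a n := by
  rw [fM]
  split_ifs with h
  · rw [eval_X, h.1, h.2]
  · rw [eval_C]

theorem fM_C {a n : ℕ} (h : ¬ (a = 1 ∧ n = 1)) : fM L a n = C (mf L a n) := by
  rw [fM, if_neg h]

theorem fM_deg (a n : ℕ) : (fM L a n).natDegree ≤ 1 := by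
  rw [fM]
  split_ifs with h
  · exact natDegree_X_le
  · rw [natDegree_C]
    exact Nat.zero_le 1

/-- the polynomials with coefficients which are regular at `s0` -/
noncomputable def DM (s0 : ℂ) : Subring (PowerSeries M)[X] where
  carrier := {p | ∀ i, p.coeff i ∈ DenRing L (Kn s0)}
  mul_mem' := by
    intro p q hp hq i
    rw [coeff_mul]
    exact Subring.sum_mem _ fun x _ => Subring.mul_mem _ (hp _) (hq _)
  one_mem' := by
    intro i
    rw [coeff_one]
    split_ifs
    · exact Subring.one_mem _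
    · exact Subring.zero_mem _
  add_mem' := by
    intro p q hp hq i
    rw [coeff_add]
    exact Subring.add_mem _ (hp i) (hq i)
  zero_mem' := fun i => by
    rw [coeff_zero]
    exact Subring.zero_mem _
  neg_mem' := by
    intro p hp i
    rw [coeff_neg]
    exact Subring.neg_mem _ (hp i)

variable {L}

theorem C_mem_DM {s0 : ℂ} {x : PowerSeries M} (hx : x ∈ DenRing L (Kn s0)) : C x ∈ DM L s0 := by
  intro i
  rw [coeff_C]
  split_ifs
  · exact hx
  · exact Subring.zero_mem _

theorem X_mem_DM (s0 : ℂ) : (X : (PowerSeries M)[X]) ∈ DM L s0 := by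
  intro i
  rw [coeff_X]
  split_ifs
  · exact Subring.one_mem _
  · exact Subring.zero_mem _

theorem zdata_M : ZData (DM L (-1)) (-1) (fM L) (C (PowerSeries.C (L : M))) where
  one := by
    rw [fM_C L (by decide), mf_zero, map_one]
  ell := C_mem_DM (C_mem _)
  reg := by
    intro a n hn h
    rw [fM_C]
    · exact C_mem_DM ((zdata_mot L (-1)).reg a n hn h)
    · rintro ⟨rfl, rfl⟩
      apply h
      norm_num
  beta := by
    intro u1 k1 u2 k2 h0 hk1 hk2 hz1 hz2 h1 h2
    have e1 : fM L u1 k1 = C (mf L u1 k1) := by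
      apply fM_C
      rintro ⟨rfl, rfl⟩
      apply h1
      norm_num
    have e2 : fM L u2 k2 = C (mf L u2 k2) := by
      apply fM_C
      rintro ⟨rfl, rfl⟩
      apply h2
      norm_num
    have e3 : fM L (u1 + u2) (k1 + k2) = C (mf L (u1 + u2) (k1 + k2)) := by
      apply fM_C
      omega
    have h3 := (zdata_mot L (-1)).beta u1 k1 u2 k2 h0 hk1 hk2 hz1 hz2 h1 h2
    have h4 := C_mem_DM h3
    rw [e1, e2, e3]
    simpa using h4
  pass := by
    intro a n u k ha hu hn hk h0 h1
    have e1 : fM L (a + u) (n + k) = C (mf L (a + u) (n + k)) := by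
      apply fM_C
      omega
    have e2 : fM L u k = C (mf L u k) := by
      apply fM_C
      rintro ⟨rfl, rfl⟩
      apply h1
      norm_num
    by_cases h : a = 1 ∧ n = 1
    · obtain ⟨rfl, rfl⟩ := h
      rw [e1, e2, ← C_sub]
      refine Subring.mul_mem _ (C_mem_DM (Subring.sub_mem _
        ((zdata_mot L (-1)).reg _ _ (by omega) ?_) ((zdata_mot L (-1)).reg _ _ hk ?_))) ?_
      · intro h2
        apply h1
        push_cast at h2
        linear_combination h2
      · rw [mul_comm]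
        exact h1
      · rw [fM, if_pos ⟨rfl, rfl⟩]
        exact X_mem_DM _
    · have h3 := C_mem_DM ((zdata_mot L (-1)).pass a n u k ha hu hn hk h0 h1)
      rw [e1, e2, fM_C L h]
      simpa using h3

theorem liftM {h' : MP} {a0 n0 a1 n1 : ℕ} {Z : PowerSeries M}
    (hZ : RedZeta (mf L) (PowerSeries.C (L : M)) h' a0 n0 a1 n1 Z) :
    1 ≤ n0 → 1 ≤ n1 → ¬ (a0 = 1 ∧ n0 = 1) → ¬ (a1 = 1 ∧ n1 = 1) →
    ∃ Y : (PowerSeries M)[X], RedZeta (fM L) (C (PowerSeries.C (L : M))) h' a0 n0 a1 n1 Y ∧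
      Y.eval (mf L 1 1) = Z ∧ Y.natDegree ≤ 1 := by
  classical
  induction hZ with
  | unit h' a0 n0 a1 n1 hh =>
    intro hn0 hn1 hz0 hz1
    refine ⟨_, RedZeta.unit h' a0 n0 a1 n1 hh, ?_, ?_⟩
    · rw [eval_mul, fM_eval, fM_eval]
    · rw [fM_C L hz0, fM_C L hz1, ← C_mul, natDegree_C]
      exact Nat.zero_le 1
  | curveV h' a0 n0 h0 h1 =>
    intro hn0 hn1 hz0 hz1
    refine ⟨_, RedZeta.curveV h' a0 n0 h0 h1, ?_, ?_⟩
    · rw [eval_mul, fM_eval, fM_eval]
    · rw [fM_C L hz0]
      exact (natDegree_C_mul_le _ _).trans (fM_deg L _ _)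
  | curveU h' a1 n1 h0 h1 =>
    intro hn0 hn1 hz0 hz1
    refine ⟨_, RedZeta.curveU h' a1 n1 h0 h1, ?_, ?_⟩
    · rw [eval_mul, fM_eval, fM_eval]
    · rw [fM_C L hz1]
      exact (natDegree_C_mul_le _ _).trans (fM_deg L _ _)
  | blowup h' a0 n0 a1 n1 m hm hc hI hhc hhI S h0S hS Zc ZI hz0 hcS hZI ih0 ihc ihI =>
    intro hn0 hn1 hy0 hy1
    obtain ⟨Y0, hY0, e0, d0⟩ := ih0 (by omega) hn1 (by omega) hy1
    obtain ⟨YI, hYI, eI, dI⟩ := ihI hn0 (by omega) hy0 (by omega)
    have hch : ∀ c' : ℂ, ∃ Y : (PowerSeries M)[X], (c' ∈ S → c' ≠ 0 →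
        RedZeta (fM L) (C (PowerSeries.C (L : M))) (hc c') (a0 + a1 + m) (n0 + n1) 0 1 Y ∧
          Y.eval (mf L 1 1) = Zc c' ∧ Y.natDegree ≤ 1) := by
      intro c'
      by_cases hcS : c' ∈ S ∧ c' ≠ 0
      · obtain ⟨Y, hY, e⟩ := ihc c' hcS.1 hcS.2 (by omega) le_rfl (by omega) (by omega)
        exact ⟨Y, fun _ _ => ⟨hY, e⟩⟩
      · exact ⟨0, fun h1 h2 => absurd ⟨h1, h2⟩ hcS⟩
    choose Y hY using hch
    let Yc : ℂ → (PowerSeries M)[X] := fun c' => if c' = 0 then Y0 else Y c'
    have hYc : ∀ c' ∈ S, (Yc c').eval (mf L 1 1) = Zc c' ∧ (Yc c').natDegree ≤ 1 := by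
      intro c' hcS
      by_cases h : c' = 0
      · simp only [Yc, if_pos h]
        rw [h]
        exact ⟨e0, d0⟩
      · simp only [Yc, if_neg h]
        exact (hY c' hcS h).2
    refine ⟨_, RedZeta.blowup h' a0 n0 a1 n1 m hm hc hI hhc hhI S h0S hS Yc YI ?_ ?_ hYI, ?_, ?_⟩
    · simp only [Yc, if_pos]
      exact hY0
    · intro c' hcS h
      simp only [Yc, if_neg h]
      exact (hY c' hcS h).1
    · rw [eval_add, eval_add, eval_finsetSum, eI, Finset.sum_congr rfl fun c' hc' => (hYc c' hc').1,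
        eval_mul, fM_eval, eval_sub, eval_C, eval_natCast]
    · refine (natDegree_add_le _ _).trans (max_le ((natDegree_add_le _ _).trans (max_le dI ?_)) ?_)
      · exact natDegree_sum_le_of_forall_le _ _ fun c' hc' => (hYc c' hc').2
      · have h2 : fM L (a0 + a1 + m) (n0 + n1) = C (mf L (a0 + a1 + m) (n0 + n1)) :=
          fM_C L (by omega)
        have h3 : (C (PowerSeries.C (L : M)) - (S.card : (PowerSeries M)[X])) *
            fM L (a0 + a1 + m) (n0 + n1)
            = C ((PowerSeries.C (L : M) - (S.card : PowerSeries M)) *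
              mf L (a0 + a1 + m) (n0 + n1)) := by
          rw [h2, C_mul, C_sub, C_eq_natCast]
        rw [h3, natDegree_C]
        exact Nat.zero_le 1

theorem q11 : (1 - qq L 1 1) * mf L 1 1 = PowerSeries.C ((L : M) - 1) * qq L 1 1 := by
  rw [mf_pos L le_rfl]
  linear_combination (PowerSeries.C ((L : M) - 1) * qq L 1 1) * geo_mul L le_rfl 1

/-- (M5) -/
theorem regM {F : MP} (hF : F ≠ 0) {s0 : ℂ}
    (hE : Evp (FF F (fun _ : Option Empty => (1 : MP)) 1) s0) {Z : PowerSeries M}
    (hZ : RedZeta (mf L) (PowerSeries.C (L : M)) F 0 1 0 1 Z) :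
    (1 - qq L 1 1) * Z ∈ DenRing L (Kn s0) := by
  have hq : (1 - qq L 1 1) ∈ DenRing L (Kn s0) :=
    Subring.sub_mem _ (Subring.one_mem _) (qq_mem _ _)
  by_cases hs : s0 = -1
  · subst hs
    obtain ⟨Y, hY, e, d⟩ := liftM hZ le_rfl le_rfl (by decide) (by decide)
    have h1 : Y ∈ DM L (-1) := by
      refine point3 hF hE zdata_M ?_ hY
      rw [fM, if_pos ⟨rfl, rfl⟩]
      exact X_mem_DM _
    have h2 : Z = Y.coeff 0 + Y.coeff 1 * mf L 1 1 := by
      rw [← e]
      conv_lhs => rw [eq_X_add_C_of_natDegree_le_one d]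
      simp
      ring
    rw [h2]
    have h5 : (1 - qq L 1 1) * (Y.coeff 0 + Y.coeff 1 * mf L 1 1)
        = (1 - qq L 1 1) * Y.coeff 0 + Y.coeff 1 * (PowerSeries.C ((L : M) - 1) * qq L 1 1) := by
      linear_combination (Y.coeff 1) * q11 (L := L)
    rw [h5]
    exact Subring.add_mem _ (Subring.mul_mem _ hq (h1 0))
      (Subring.mul_mem _ (h1 1) (Subring.mul_mem _ (C_mem _) (qq_mem _ _)))
  · refine Subring.mul_mem _ hq (point3 hF hE (zdata_mot L s0) ?_ hZ)
    refine mf_mem le_rfl fun _ => ?_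
    rw [Kn]
    intro h2
    apply hs
    push_cast at h2
    linear_combination h2

end Pool.Agent.J4H50.YM
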