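import Pool.Agent.J4H50.YM.Cv2
import Pool.Agent.J4H50.YO.Main

set_option autoImplicit false
set_option linter.unusedSectionVars false
set_option linter.unusedVariables false
set_option linter.unusedSimpArgs false

/-! # The motivic monodromy conjecture for superisolated singularities -/

namespace Pool.Agent.J4H50.YM

open Pool.Agent.W574.MO Pool.Agent.J4H50.TF Pool.Agent.J4H50.YO
open Pool.Agent.Y229.PS (IsFormalBFunction)

variable {M : Type} [CommRing M] {L : Mˣ}

/-- the properties of the zeta functions -/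
structure GoodM (L : Mˣ) {σ : Type} (f : MvPowerSeries σ ℂ) (Z : PowerSeries M) : Prop where
  ne : f ≠ 0
  zero : MvPowerSeries.constantCoeff f = 0
  dec : Dec L (KN f) Z

theorem den_mono {K K' : ℕ → ℕ → Prop} (h : ∀ a n, 1 ≤ a → 1 ≤ n → K a n → K' a n)
    {x : PowerSeries M} (hx : x ∈ DenRing L K) : x ∈ DenRing L K' := by
  refine Subring.closure_mono (Set.union_subset_union_right _ ?_) hx
  rintro u ⟨a1, n1, ha1, hn1, hK, hu⟩
  exact ⟨a1, n1, ha1, hn1, h _ _ ha1 hn1 hK, hu⟩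

theorem Dec.mono {K K' : ℕ → ℕ → Prop} (h : ∀ a n, 1 ≤ a → 1 ≤ n → K a n → K' a n)
    {Z : PowerSeries M} (hZ : Dec L K Z) : Dec L K' Z := by
  obtain ⟨ρ, r, h1, h2, h3, h4⟩ := hZ
  exact ⟨ρ, r, h1, den_mono h h2, den_mono h h3, den_mono h h4⟩

theorem L_qq : PowerSeries.C (L : M) * qq L 1 1 = (PowerSeries.X : PowerSeries M) := by
  rw [qq, pow_one, pow_one, ← mul_assoc, ← map_mul, ← Units.val_mul, mul_inv_cancel,
    Units.val_one, map_one, one_mul]

theorem dec_smooth (K : ℕ → ℕ → Prop) : Dec L K (mf L 1 1 : PowerSeries M) := by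
  have hg := geo_mul L le_rfl 1
  have hZ : (mf L 1 1 : PowerSeries M) = PowerSeries.C ((L : M) - 1) * (qq L 1 1 * geo L 1 1) := by
    rw [mf_pos L le_rfl]
    ring
  have h3 : (PowerSeries.C ((L : M) - 1) : PowerSeries M) = PowerSeries.C (L : M) - 1 := by
    rw [map_sub, map_one]
  refine ⟨qq L 1 1 * geo L 1 1, 0, ?_, Subring.zero_mem _, ?_, ?_⟩
  · rw [hZ, add_zero]
  · have h1 : (1 - qq L 1 1) * (qq L 1 1 * geo L 1 1) = (qq L 1 1 : PowerSeries M) := by
      linear_combination (qq L 1 1 : PowerSeries M) * hg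
    rw [h1]
    exact qq_mem _ _
  · have h1 := vol_mul (mf L 1 1 : PowerSeries M)
    have h2 : (PowerSeries.mk fun _ => (1 : M)) * (1 - PowerSeries.X) = 1 :=
      PowerSeries.mk_one_mul_one_sub_eq_one M
    have h5 : (1 - PowerSeries.X) * (vol (mf L 1 1) - qq L 1 1 * geo L 1 1)
        = (1 - PowerSeries.X : PowerSeries M) := by
      rw [h3] at hZ
      have h6 := L_qq (L := L)
      linear_combination h1 - hZ - (PowerSeries.C (L : M) * qq L 1 1) * hg -
        (qq L 1 1 * geo L 1 1 + 1) * h6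
    have h7 : vol (mf L 1 1) - qq L 1 1 * geo L 1 1 = (1 : PowerSeries M) := by
      linear_combination (PowerSeries.mk fun _ => (1 : M)) * h5 -
        (vol (mf L 1 1) - qq L 1 1 * geo L 1 1 - 1) * h2
    rw [h7]
    exact Subring.one_mem _

theorem goodM_cone (hNE : S_NE) (hCN : S_CN) (hM8 : S_M8) {τ ι : Type} [Fintype τ]
    [DecidableEq τ] [Fintype ι] (d : ℕ) (hd : 2 ≤ d)
    (f0 : MvPolynomial (Option τ) ℂ) (hf0 : f0.IsHomogeneous d) (hf00 : f0 ≠ 0)
    (R : MvPowerSeries (Option τ) ℂ) (hR : OrdF (fun _ => 1) (d + 1) R)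
    (hn : Fintype.card τ ≤ d)
    (ξ : ι → Option τ → MvPowerSeries (Option τ) ℂ)
    (J U : ι → MvPowerSeries (Option τ) ℂ) (hJu : ∀ i, IsUnit (J i)) (hU : ∀ i, IsUnit (U i))
    (hJ : ∀ i, (Matrix.of fun l m => MvPowerSeries.pderiv ℂ m (MvPowerSeries.X none * ξ i l)).det =
      MvPowerSeries.X none ^ Fintype.card τ * J i)
    (g : ι → MvPowerSeries τ ℂ) (Z : ι → PowerSeries M) (hg : ∀ i, GoodM L (g i) (Z i))
    (hf : ∀ i, MvPowerSeries.subst (fun l => MvPowerSeries.X none * ξ i l)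
        ((f0 : MvPowerSeries (Option τ) ℂ) + R) =
      U i * (MvPowerSeries.X none ^ d *
        (MvPowerSeries.rename some (g i) + MvPowerSeries.X none)))
    (A : M)
    (hA : NonExact f0 (-((Fintype.card τ + 1 : ℕ) : ℂ) / d) ∨
      ∃ i, NV (g i) (-((Fintype.card τ + 1 : ℕ) : ℂ) / d) ∧ Sing (g i)) :
    GoodM L ((f0 : MvPowerSeries (Option τ) ℂ) + R) (coneZ L (Fintype.card τ + 1) d A Z) := by
  classical
  obtain ⟨n, hnd⟩ : ∃ n, n = Fintype.card τ + 1 := ⟨_, rfl⟩
  rw [← hnd] at hA ⊢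
  have hdc : (d : ℂ) ≠ 0 := Nat.cast_ne_zero.2 (by omega)
  have hS := cone_sing hd hf0 hR
  have hf' : ∀ i, MvPowerSeries.subst (fun l => MvPowerSeries.X none * ξ i l)
        ((f0 : MvPowerSeries (Option τ) ℂ) + R) =
      U i * (MvPowerSeries.X none ^ d *
        (MvPowerSeries.rename some (g i) + MvPowerSeries.X none ^ 1)) := by
    intro i
    rw [pow_one]
    exact hf i
  have hcn : ∀ (i : ι) (S s : ℂ), (1 : ℂ) * S = (n : ℂ) + (d + 1) * s → s.re < 0 →
      (∀ j : ℕ, 1 ≤ j → (n : ℂ) + d * s ≠ j) → NV (g i) S → Sing (g i) →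
      NV ((f0 : MvPowerSeries (Option τ) ℂ) + R) s := by
    intro i S s h1 h2 h3 h4 h5
    refine hCN ((f0 : MvPowerSeries (Option τ) ℂ) + R) (fun l => MvPowerSeries.X none * ξ i l)
      (J i) (U i) (g i) S s d 1 (by omega) le_rfl ?_ ?_ ?_ ?_ (hJu i) (hU i) (hJ i) (hf' i) h5 h4
    · rw [← hnd]
      push_cast
      exact h1
    · intro m hm
      rw [hm, Complex.natCast_re] at h2
      exact absurd h2 (not_lt.2 (Nat.cast_nonneg m))
    · intro j hj
      rw [← hnd]
      push_cast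
      rw [one_mul]
      exact h3 j hj
    · intro l
      rw [map_mul, MvPowerSeries.constantCoeff_X, zero_mul]
  have h1 := hS 0 (by simp)
  refine ⟨cone_ne hf0 hf00 hR, ?_, ?_⟩
  · rwa [MvPowerSeries.coeff_zero_eq_constantCoeff_apply] at h1
  refine hM8 L n d (by omega) (by omega) A Z (fun i => KN (g i))
    (KN ((f0 : MvPowerSeries (Option τ) ℂ) + R)) ⟨?_, hS⟩ ?_ (fun i => (hg i).dec)
  · rcases hA with hA | ⟨i, hA, hA'⟩
    · have hcard : Fintype.card (Option τ) = n := by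
        rw [hnd]
        exact Fintype.card_option
      have h3 := hNE d f0 R (by omega) hf0 hf00 hR (by rw [hcard]; exact hA)
      rw [hcard] at h3
      exact h3
    · refine hcn i _ _ ?_ ?_ ?_ hA hA'
      · field_simp
        ring
      · rw [neg_div]
        exact re_div (by omega) (by omega)
      · intro j hj hcon
        have h5 : (j : ℂ) = 0 := by
          rw [← hcon]
          field_simp
          ring
        have h6 : j = 0 := by exact_mod_cast h5
        omega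
  · rintro i a m ha hm ⟨hK, hK'⟩
    refine ⟨?_, hS⟩
    have hac : (a : ℂ) ≠ 0 := Nat.cast_ne_zero.2 (by omega)
    have hd1 : ((d : ℂ) + 1) ≠ 0 := by
      have : ((d + 1 : ℕ) : ℂ) ≠ 0 := Nat.cast_ne_zero.2 (by omega)
      rwa [Nat.cast_add, Nat.cast_one] at this
    refine hcn i _ _ ?_ ?_ ?_ hK hK'
    · push_cast
      field_simp
      ring
    · rw [neg_div]
      exact re_div (by omega) (by positivity)
    · intro j hj hcon
      -- `(d + 1) j a + d m = n a`
      have h5 : (((d + 1) * a * j + d * m : ℕ) : ℂ) = ((n * a : ℕ) : ℂ) := by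
        push_cast at hcon ⊢
        field_simp at hcon
        linear_combination -hcon
      have h6 : (d + 1) * a * j + d * m = n * a := by exact_mod_cast h5
      have h7 : n * a ≤ (d + 1) * a := Nat.mul_le_mul_right a (by omega)
      have h8 : (d + 1) * a ≤ (d + 1) * a * j := Nat.le_mul_of_pos_right _ (by omega)
      have h9 : 0 < d * m := Nat.mul_pos (by omega) (by omega)
      omega

/-- **The properties of the zeta functions of the class.** -/
theorem siz_good (hM1 : S_M1) (hM2 : S_M2) (hM3 : S_M3) (hM4 : S_M4) (hM7 : S_M7) (hM8 : S_M8)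
    {σ : Type} {f : MvPowerSeries σ ℂ} {Z : PowerSeries M} (h : SIZ L σ f Z) :
    GoodM L f Z := by
  induction h with
  | smooth f h0 i h1 =>
    refine ⟨?_, h0, dec_smooth _⟩
    rintro rfl
    rw [map_zero] at h1
    exact h1 rfl
  | curve F hF h0 Z hZ =>
    refine ⟨?_, ?_, dec_curve Pool.Agent.J4H19.YO.t_RN hM1 hM2 hM3 hM4 L hF h0 hZ⟩
    · rw [Ne, MvPolynomial.coe_eq_zero_iff]
      exact hF
    · rw [← MvPowerSeries.coeff_zero_eq_constantCoeff_apply, MvPolynomial.coeff_coe,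
        ← MvPolynomial.constantCoeff_eq, h0]
  | swh G0 g w D hw hD hG0 hg h0 h1 hz po =>
    have h2 := Pool.Agent.J4H28.YO.t_SW G0 g w D hw hD hG0 hg h0 h1 hz
    refine ⟨swhF_ne hG0 hg hz, swhF_zero hD hG0 hg, hM7 L w D hw hD po _ ⟨?_, h2.2⟩⟩
    rw [neg_div]
    exact h2.1
  | cone d hd f0 hf0 hf00 R hR p hp hsing hn ξ hξ J U hJu hU hJ g Z hg hf A hA ih =>
    exact goodM_cone Pool.Agent.J4H28.YO.t_NE p_CN hM8 d hd f0 hf0 hf00 R hR hn ξ J U hJu hU hJ g Z
      ih hf A hA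
  | ren ε f Z _ ih =>
    refine ⟨?_, ?_, ih.dec.mono fun a n _ _ h => ⟨(Pool.Agent.J4H19.YO.t_RN ε f _).1 h.1,
      (Pool.Agent.J4H19.YO.t_RN ε f 0).2 h.2⟩⟩
    · intro h
      apply ih.ne
      exact MvPowerSeries.rename_injective (R := ℂ) ε.toEmbedding (by rw [map_zero]; exact h)
    · rw [MvPowerSeries.constantCoeff_rename, ih.zero]
  | coord f f' Z _ φ u hφ hu h ih =>
    have hce : ∀ n, CE f' f n := by
      intro n
      exact ⟨φ, u, hφ, hu, fun m _ => by rw [h]⟩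
    exact ⟨coord_ne hce ih.ne, coord_zero hce ih.zero, ih.dec.mono fun a n _ _ h' =>
      ⟨(p_CO f f' φ u _ hφ hu h).1 h'.1, (p_CO f f' φ u 0 hφ hu h).2 h'.2⟩⟩

/-- **The local theorem.** -/
theorem siz_local (hM1 : S_M1) (hM2 : S_M2) (hM3 : S_M3) (hM4 : S_M4) (hM7 : S_M7) (hM8 : S_M8)
    {N : ℕ} (f : MvPowerSeries (Fin N) ℂ) (Z : PowerSeries M) (hZ : SIZ L (Fin N) f Z)
    (b : Polynomial ℂ) (hb : IsFormalBFunction f b) : Z ∈ DenRing L (Kb b) := by
  have hG := siz_good hM1 hM2 hM3 hM4 hM7 hM8 hZ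
  obtain ⟨ρ, r, h1, h2, h3, h4⟩ := hG.dec
  have hK : ∀ a n, 1 ≤ a → 1 ≤ n → KN f a n → Kb b a n := by
    intro a n _ _ h
    by_contra hne
    exact Pool.Agent.J4H45.YO.t_NFE f _ h.2 h.1 (FEv_of_formal hG.ne hb hne)
  have hg : geo L 1 1 ∈ DenRing L (Kb b) := geo11_mem L b (formal_root hG.ne hG.zero hb)
  have h5 : ρ = (1 - qq L 1 1) * ρ * geo L 1 1 := by
    linear_combination (-ρ) * geo_mul L le_rfl 1
  have hρ : ρ ∈ DenRing L (Kb b) := by
    rw [h5]
    exact Subring.mul_mem _ (den_mono hK h3) hg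
  rw [h1]
  exact Subring.add_mem _ (Subring.mul_mem _ (C_mem _) hρ) (den_mono hK h2)

end Pool.Agent.J4H50.YM
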