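import Pool.Agent.J4H50.YM.Defs

set_option autoImplicit false

/-! # Project YM: exact statements -/

namespace Pool.Agent.J4H50.YM

open Pool.Agent.W574.MO Pool.Agent.J4H50.TF Pool.Agent.J4H50.YO
open PowerSeries (C X)

/-- the pairs `(a, n)` such that there is a de Rham functional with the value `1` at `- n / a` -/
def KN {σ : Type} (f : MvPowerSeries σ ℂ) (a n : ℕ) : Prop := NV f (-(n : ℂ) / a) ∧ Sing f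

/-- `Z = (L - 1) ρ + r`, such that `r`, `(1 - L⁻¹ T) ρ` and `(1 - Z) / (1 - T) - ρ` only have the
denominators `1 - L⁻ⁿ Tᵃ` with `K a n` -/
def Dec {M : Type} [CommRing M] (L : Mˣ) (K : ℕ → ℕ → Prop) (Z : PowerSeries M) : Prop :=
  ∃ ρ r : PowerSeries M, Z = C ((L : M) - 1) * ρ + r ∧ r ∈ DenRing L K ∧
    (1 - qq L 1 1) * ρ ∈ DenRing L K ∧ vol Z - ρ ∈ DenRing L K

/-- (M1) the zeta function of a point of the plane comes from `ℤ[L, L⁻¹]` (compare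
`N103.exists_univA`) -/
def S_M1 : Prop := ∀ {M : Type} [CommRing M] (L : Mˣ) {h : MvPolynomial (Fin 2) ℂ}
  {a0 n0 a1 n1 : ℕ} {Z : PowerSeries M}, RedZeta (mf L) (C (L : M)) h a0 n0 a1 n1 Z →
  ∃ Z0 : PowerSeries AA, RedZeta (mf LL) (C ((LL : AAˣ) : AA)) h a0 n0 a1 n1 Z0 ∧ Phi L Z0 = Z

/-- (M2) compare `N103.mem_allA` -/
def S_M2 : Prop := ∀ {M : Type} [CommRing M] (L : Mˣ) {h : MvPolynomial (Fin 2) ℂ}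
  {a0 n0 a1 n1 : ℕ} {Z : PowerSeries M}, RedZeta (mf L) (C (L : M)) h a0 n0 a1 n1 Z →
  1 ≤ n0 → 1 ≤ n1 → Z ∈ DenRing L (fun _ _ => True)

/-- (M3) the value at `T = 1`: `(L - 1) ^ 2 / ((L ^ n0 - 1) (L ^ n1 - 1))`. Induction; compare
`N103.V.germ_val` and `N103.V.Val` (with a relation `V1 x c : ∃ P Q, Q x = P ∧ Q(1) ≠ 0 ∧ P(1) = c Q(1)`, `c`
in the fraction field of `AA`). For the blowing up, with `u_i = L ^ n_i - 1`, `w = L ^ (n0 + n1) - 1`: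
`(L-1)²/(u0 w) + (L-1)²/(w u1) + (|S| - 1)(L-1)/w + (L - |S|)(L-1)/w = (L-1)²/(u0 u1)`, because
`u0 + u1 + u0 u1 = w`. -/
def S_M3 : Prop := ∀ {h : MvPolynomial (Fin 2) ℂ} {a0 n0 a1 n1 : ℕ} {Z : PowerSeries AA},
  RedZeta (mf LL) (C ((LL : AAˣ) : AA)) h a0 n0 a1 n1 Z → 1 ≤ n0 → 1 ≤ n1 →
  (a0 = 0 → n0 = 1) → (a1 = 0 → n1 = 1) →
  ∃ P Q : Polynomial AA, (Q : PowerSeries AA) * Z = P ∧ Q.eval 1 ≠ 0 ∧
    P.eval 1 * ((((LL : AAˣ) : AA) ^ n0 - 1) * (((LL : AAˣ) : AA) ^ n1 - 1)) =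
      (((LL : AAˣ) : AA) - 1) ^ 2 * Q.eval 1

/-- (M4) division by `L - 1`: `mf L a n` is divisible for `a ≥ 1` -/
def S_M4 : Prop := ∀ {M : Type} [CommRing M] (L : Mˣ) {h : MvPolynomial (Fin 2) ℂ}
  {a0 n0 a1 n1 : ℕ} {Z : PowerSeries M}, RedZeta (mf L) (C (L : M)) h a0 n0 a1 n1 Z →
  (1 ≤ a0 ∨ 1 ≤ a1 ∨ MvPolynomial.constantCoeff h = 0) →
  ∃ ρ : PowerSeries M, Z = C ((L : M) - 1) * ρ

/-- (M7) semi-weighted-homogeneous germs: with `A = swA`, `V = swV`: `r = A`,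
`ρ = (1 - (1 - T) V - A) L⁻¹ T / (1 - L⁻¹ T)`, `(1 - L⁻¹ T) ρ = (1 - (1 - T) V - A) L⁻¹ T`, and
`(1 - Z) / (1 - T) - ρ = 1 - A + T V`; `A`, `V` are in the `DenRing`, because
`(m + D) w_i / D = m w_i / D + w_i` (compare `J4H46.MT.swA_mem`, `swV_mem`, `good_swh` in
`J4H46/MT/Cls.lean`). -/
def S_M7 : Prop := ∀ {M : Type} [CommRing M] (L : Mˣ) {σ : Type} [Fintype σ] [Nonempty σ]
  (w : σ → ℕ) (D : ℕ), (∀ i, 0 < w i) → 0 < D → ∀ (po : Finset σ → M) (K : ℕ → ℕ → Prop),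
  K D (∑ i, w i) → Dec L K (swZM L w D po)

/-- (M8) the cone. With `q = L⁻ⁿ Tᵈ`, `S = L⁻ⁿ T^(d+1) = q T`, `Z_i = (L - 1) ρ_i + r_i`,
`σ_i = (1 - L⁻¹ T) ρ_i`, `δ_i = vol Z_i - ρ_i`, `g = geo L d n = 1 / (1 - q)`, `h = geo L 1 1`,
`B = ∑_{i<n} L ^ i - A - #ι` (note `sbS ρ_i (1 - L⁻¹ S) = sbS σ_i`, `1 - L⁻¹ S` is
`1 - qq L 1 1 * qq L d n`):

`r = A (L-1) q g + ∑ ((L-1) (δ_i(S) - 1) + r_i(S) ((L-1) g - L))`,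
`ρ = (B (L-1) q g L⁻¹ T + ∑ ((L-1) σ_i(S) g + r_i(S))) h`,
`(1 - L⁻¹ T) ρ = B (L-1) q g L⁻¹ T + ∑ ((L-1) σ_i(S) g + r_i(S))`,
`vol Z - ρ = (1 + T + ⋯ + T^(d-1)) g + (L-1) q g (B + ∑ δ_i(S))`.

For the second: `ptZ = (L-1)(δ(S)-1) + r(S) (( L-1) g + (L-1) h - L) + (L-1) ρ(S) (1 + (L-1) g + (L-1) h - L)`,
and `1 + (L-1) g + (L-1) h - L = (L-1)(g + h - 1) = (L-1) (1 - L⁻¹ S) g h`. For the last one: multiply by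
`1 - T`: `1 - r - L (1 - L⁻¹ T) ρ = (1 - T^d) g + (1-T)(L-1) q g (B + ∑ δ_i(S))`, which uses
`r_i + L σ_i = 1 - (1 - T) δ_i` (so `r_i(S) + L σ_i(S) = 1 - (1 - S) δ_i(S)`), `S - q = - q (1 - T)` and
`(L-1)(A + B + #ι) = L ^ n - 1`, `L ^ n q = T ^ d`. -/
def S_M8 : Prop := ∀ {M : Type} [CommRing M] (L : Mˣ) {ι : Type} [Fintype ι] (n d : ℕ), 1 ≤ n →
  1 ≤ d → ∀ (A : M) (Z : ι → PowerSeries M) (K : ι → ℕ → ℕ → Prop) (K' : ℕ → ℕ → Prop), K' d n →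
  (∀ i a m, 1 ≤ a → 1 ≤ m → K i a m → K' ((d + 1) * a) (m + n * a)) →
  (∀ i, Dec L (K i) (Z i)) → Dec L K' (coneZ L n d A Z)

end Pool.Agent.J4H50.YM
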